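import Pool.Agent.H82.GH.Rigid
import Pool.Agent.H82.GH.GHCorr
import Pool.Agent.H82.GH.Iso
import Pool.Agent.H82.GH.Reenum
import Pool.Agent.H82.GH.ReMeas
import Pool.Agent.H82.GH.Anal
import Pool.Agent.H82.GH.RankMeas
import Pool.Agent.H82.GH.RankInv

/-!
# The Gromov-Hausdorff equivalence relation and isometry of Polish metric spaces
-/

namespace Pool.Agent.H82.Kept.ScottPieces

open Pool.Agent.H82.GH MeasureTheory Set
open scoped Ordinal

/-- the reduction -/
noncomputable def red (f : Met) : Met :=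
  ⟨reenum (DD (rho f.1 f.1) f.1 f.1), isMet_reenum (isPMet_DD f.1) (kept_infinite _ _)⟩

theorem nonneg (f : Met) (x y : ℕ) : 0 ≤ f.1 x y := by
  have h1 := f.2.tri x y x
  rw [(f.2.zero_iff x x).2 rfl, f.2.symm y x] at h1
  linarith

theorem reduces (f g : Met) : ghDist (Space f) (Space g) = 0 ↔
    Nonempty (Space (red f) ≃ᵢ Space (red g)) := by
  rw [ghDist_eq_zero_iff, iso_iff_glue]
  show _ ↔ ∃ θ : ℕ → ℕ → ℝ, Glue (reenum (DD (rho f.1 f.1) f.1 f.1))
    (reenum (DD (rho g.1 g.1) g.1 g.1)) θ
  rw [glue_reenum_iff (isPMet_DD f.1) (isPMet_DD g.1) (kept_infinite _ _) (kept_infinite _ _)]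
  exact ⟨fun h => ⟨_, glue_of_corr h⟩, fun ⟨θ, h⟩ => corr_of_glue (nonneg f) (nonneg g) h⟩

theorem measurable_red_an : Measurable[sigmaAn] red := by
  have hcoe : ∀ x y, Measurable[sigmaAn] fun f : Met => f.1 x y := by
    intro x y s hs
    refine measurableSet_sigmaAn ?_
    exact ((measurable_pi_apply y).comp ((measurable_pi_apply x).comp measurable_subtype_coe)) hs
  refine @Measurable.subtype_mk _ _ sigmaAn _ _ _ ?_ _
  refine @measurable_pi_lambda _ _ _ sigmaAn _ _ fun i => @measurable_pi_lambda _ _ _ sigmaAn _ _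
    fun j => ?_
  exact @measurable_reenum Met sigmaAn (fun f => DD (rho f.1 f.1) f.1 f.1)
    (fun x y => @measurable_DD Met sigmaAn (fun f => rho f.1 f.1) (fun f => f.1)
      measurable_rho hcoe x y) (fun f => kept_infinite _ _) i j

theorem measurable_red_rk {α : Ordinal.{0}} (hα : α < ω₁) :
    Measurable fun f : Rk α => red f := by
  refine Measurable.subtype_mk ?_
  refine measurable_pi_lambda _ fun i => measurable_pi_lambda _ fun j => ?_
  have h : ∀ f : Rk α, reenum (DD (rho f.1.1 f.1.1) f.1.1 f.1.1) i j =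
      reenum (DD (rhoW α f.1.1 f.1.1) f.1.1 f.1.1) i j := by
    intro f
    rw [show rho f.1.1 f.1.1 = rhoW α f.1.1 f.1.1 from funext fun L => rho_eq_rhoW f.2 L]
  have h2 : Measurable fun f : Rk α => reenum (DD (rhoW α f.1.1 f.1.1) f.1.1 f.1.1) i j := by
    refine measurable_reenum (D := fun f : Rk α => DD (rhoW α f.1.1 f.1.1) f.1.1 f.1.1)
      (fun x y => measurable_DD (ρ := fun f : Rk α => rhoW α f.1.1 f.1.1)
        (f := fun f : Rk α => f.1.1) (fun L => ?_) (fun x y => ?_) x y)
      (fun f => kept_infinite _ _) i j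
    · exact (measurable_rhoW hα L).comp measurable_subtype_coe
    · exact (measurable_pi_apply y).comp ((measurable_pi_apply x).comp
        (measurable_subtype_coe.comp measurable_subtype_coe))
  have h3 : (fun f : Rk α => reenum (DD (rho f.1.1 f.1.1) f.1.1 f.1.1) i j) =
      fun f : Rk α => reenum (DD (rhoW α f.1.1 f.1.1) f.1.1 f.1.1) i j := funext h
  rw [← h3] at h2
  exact h2

/-- There is a map `h` from the space of metrics on `ℕ` to itself such that the completions of
`(ℕ, f)` and `(ℕ, g)` have Gromov-Hausdorff distance `0` iff the completions of `(ℕ, h f)` and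
`(ℕ, h g)` are isometric; `h` is measurable for the σ-algebra generated by the analytic sets; and
the space of metrics is the increasing union of Borel sets `A α`, `α < ω₁`, invariant under the
equivalence relation, such that `h` is Borel on each `A α`. -/
theorem result : ∃ h : Met → Met,
    (∀ f g, ghDist (Space f) (Space g) = 0 ↔ Nonempty (Space (h f) ≃ᵢ Space (h g))) ∧
    Measurable[sigmaAn] h ∧
    ∃ A : Ordinal.{0} → Set Met, Monotone A ∧ (∀ f, ∃ α < ω₁, f ∈ A α) ∧
      ∀ α < ω₁, MeasurableSet (A α) ∧ (Measurable fun f : A α => h f) ∧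
        ∀ f g, ghDist (Space f) (Space g) = 0 → f ∈ A α → g ∈ A α :=
  ⟨red, reduces, measurable_red_an, Rk, Rk_mono, exists_Rk, fun _ hα => ⟨measurableSet_Rk hα,
    measurable_red_rk hα, fun f g h => Rk_inv ((ghDist_eq_zero_iff f g).1 h)⟩⟩

end Pool.Agent.H82.Kept.ScottPieces
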